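import Mathlib
import Pool.Agent.H47.WT.Defs

set_option autoImplicit false

namespace Pool.Agent.H47.WT

variable {H : Type} [Group H]

section tree_aux

variable {V : Type} {T : SimpleGraph V}

lemma p6_mem (hT : T.IsTree) {s u v : V} (hv : T.Adj u v) (h1 : T.dist s v < T.dist s u)
    (P : T.Walk s u) (hP : P.IsPath) : v ∈ P.support := by
  obtain ⟨Q, hQ, hQl⟩ := hT.connected.exists_path_of_dist s v
  obtain ⟨P', hP', hPl'⟩ := hT.connected.exists_path_of_dist s u
  have hPP : P = P' := congrArg Subtype.val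
    ((hT.isAcyclic.subsingleton_path s u).elim ⟨P, hP⟩ ⟨P', hP'⟩)
  by_contra hn
  have h2 := hT.isAcyclic.mem_support_of_ne_mem_support_of_adj_of_isPath hQ hP hv.symm hn
  have h3 := hT.isAcyclic.path_concat hP hQ hv h2
  have h4 := congrArg SimpleGraph.Walk.length h3
  rw [SimpleGraph.Walk.length_concat, hQl, hPP, hPl'] at h4
  omega

lemma p6_parent (hT : T.IsTree) {s u v w : V} (hv : T.Adj u v) (hw : T.Adj u w)
    (h1 : T.dist s v < T.dist s u) (h2 : T.dist s w < T.dist s u) : v = w := by
  obtain ⟨P, hP, -⟩ := hT.connected.exists_path_of_dist s u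
  rw [hT.isAcyclic.eq_penultimate_of_adj_end hP hv (p6_mem hT hv h1 P hP),
    hT.isAcyclic.eq_penultimate_of_adj_end hP hw (p6_mem hT hw h2 P hP)]

lemma p6_closer (hT : T.IsTree) {c q : V} (h : c ≠ q) :
    ∃ c', T.Adj c c' ∧ T.dist c q = T.dist c' q + 1 := by
  obtain ⟨P, hP⟩ := hT.connected.exists_walk_length_eq_dist c q
  cases P with
  | nil => exact absurd rfl h
  | cons hadj P' =>
    rename_i c'
    refine ⟨c', hadj, ?_⟩
    rw [SimpleGraph.Walk.length_cons] at hP
    have h1 := SimpleGraph.dist_le P'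
    have h2 := hT.connected.dist_triangle (u := c) (v := c') (w := q)
    have h3 : T.dist c c' = 1 := SimpleGraph.dist_eq_one_iff_adj.2 hadj
    omega

lemma p6_away (hT : T.IsTree) : ∀ (n : ℕ) (s p c q : V), T.Adj p c →
    T.dist s c = T.dist s p + 1 → T.dist p q = T.dist c q + 1 → T.dist c q = n →
    T.dist s q = T.dist s c + n := by
  intro n
  induction n with
  | zero =>
    intro s p c q _ _ _ h0
    rw [hT.connected.dist_eq_zero_iff] at h0
    rw [h0, add_zero]
  | succ n ih =>
    intro s p c q hpc h1 h2 h3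
    have hcq : c ≠ q := by
      rintro rfl
      rw [SimpleGraph.dist_self] at h3
      omega
    obtain ⟨c', hc', h4⟩ := p6_closer hT hcq
    have hne : p ≠ c' := by
      rintro rfl
      omega
    have h5 : T.dist s c' = T.dist s c + 1 := by
      rcases hT.dist_eq_dist_add_one_of_adj s hc' with h5 | h5
      · exfalso
        exact hne (p6_parent hT (s := s) hpc.symm hc' (by omega) (by omega))
      · exact h5
    have := ih s c c' q hc' h5 h4 (by omega)
    omega

end tree_aux

/-- P6 -/
theorem tree_fix {V : Type} (T : SimpleGraph V) (hT : T.IsTree) [MulAction H V]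
    (hadj : ∀ (g : H) (u v : V), T.Adj u v → T.Adj (g • u) (g • v))
    (S : Finset V) (hS : S.Nonempty) (hinv : ∀ (g : H), ∀ v ∈ S, g • v ∈ S) :
    (∃ v : V, ∀ g : H, g • v = v) ∨ ∃ (u v : V) (g : H), T.Adj u v ∧ g • u = v ∧ g • v = u := by
  have hle : ∀ (g : H) (u v : V), T.dist (g • u) (g • v) ≤ T.dist u v := by
    intro g u v
    obtain ⟨P, hP⟩ := hT.connected.exists_walk_length_eq_dist u v
    let φ : T →g T := ⟨fun x => g • x, fun {a b} h => hadj g a b h⟩
    have h1 := SimpleGraph.dist_le (P.map φ)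
    rw [SimpleGraph.Walk.length_map, hP] at h1
    exact h1
  have hdist : ∀ (g : H) (u v : V), T.dist (g • u) (g • v) = T.dist u v := by
    intro g u v
    refine le_antisymm (hle g u v) ?_
    have := hle g⁻¹ (g • u) (g • v)
    rwa [inv_smul_smul, inv_smul_smul] at this
  obtain ⟨r, hr⟩ : ∃ r : V → ℕ, r = fun v => S.sup (fun s => T.dist v s) := ⟨_, rfl⟩
  have hrs : ∀ v, ∀ s ∈ S, T.dist v s ≤ r v := by
    intro v s hs
    rw [hr]
    exact Finset.le_sup (f := fun s => T.dist v s) hs
  have hrle : ∀ (g : H) (v : V), r (g • v) ≤ r v := by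
    intro g v
    have : r (g • v) = S.sup (fun s => T.dist (g • v) s) := by rw [hr]
    rw [this]
    apply Finset.sup_le
    intro s hs
    have h1 := hdist g v (g⁻¹ • s)
    rw [smul_inv_smul] at h1
    rw [h1]
    exact hrs v _ (hinv g⁻¹ s hs)
  have hreq : ∀ (g : H) (v : V), r (g • v) = r v := by
    intro g v
    refine le_antisymm (hrle g v) ?_
    have := hrle g⁻¹ (g • v)
    rwa [inv_smul_smul] at this
  obtain ⟨s0, hs0⟩ := hS
  obtain ⟨p, hp⟩ : ∃ p, ∀ q, r p ≤ r q := by
    obtain ⟨p, hp⟩ := Nat.sInf_mem (s := Set.range r) ⟨r s0, s0, rfl⟩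
    exact ⟨p, fun q => by rw [hp]; exact Nat.sInf_le ⟨q, rfl⟩⟩
  have claim : ∀ q, r q = r p → q ≠ p → T.Adj p q := by
    intro q hq hqp
    by_contra hn
    obtain ⟨c, hc, h1⟩ := p6_closer hT hqp.symm
    have hcq : c ≠ q := by
      rintro rfl
      exact hn hc
    have h2 : ∀ s ∈ S, T.dist c s < r p := by
      intro s hs
      rw [SimpleGraph.dist_comm]
      have e1 := hrs p s hs
      have e2 := hrs q s hs
      rw [SimpleGraph.dist_comm] at e1 e2
      rcases hT.dist_eq_dist_add_one_of_adj s hc with h3 | h3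
      · omega
      · have h4 := p6_away hT _ s p c q hc h3 h1 rfl
        have h5 := hT.connected.pos_dist_of_ne hcq
        omega
    have h3 : r c < r p := by
      have : r c = S.sup (fun s => T.dist c s) := by rw [hr]
      rw [this]
      have h4 := h2 s0 hs0
      rw [Finset.sup_lt_iff (by rw [Nat.bot_eq_zero]; omega)]
      exact h2
    exact absurd (hp c) (not_le.2 h3)
  by_cases hfix : ∀ g : H, g • p = p
  · exact Or.inl ⟨p, hfix⟩
  · right
    push Not at hfix
    obtain ⟨g, hg⟩ := hfix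
    have h1 : T.Adj p (g • p) := claim _ (hreq g p) hg
    have h2 : T.Adj (g • p) (g • g • p) := hadj g _ _ h1
    by_cases h3 : g • g • p = p
    · exact ⟨p, g • p, g, h1, rfl, h3⟩
    · exfalso
      have h4 : T.Adj p (g • g • p) := claim _ (by rw [hreq, hreq]) h3
      have h5 := hT.dist_ne_of_adj p h2
      rw [SimpleGraph.dist_eq_one_iff_adj.2 h1, SimpleGraph.dist_eq_one_iff_adj.2 h4] at h5
      exact h5 rfl

end Pool.Agent.H47.WT
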